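import Pool.Agent.Helper87.VM.Lib2

/-!
Hensel's lemma for power series over a field (module HEN).
-/

set_option autoImplicit false

namespace Pool.Agent.Helper87.VM

section HEN

variable {E : Type} [Field E]

theorem hen_mem (n : ℕ) (x : PowerSeries E) :
    x ∈ ((Ideal.span {(PowerSeries.X : PowerSeries E)}) ^ n •
      (⊤ : Submodule (PowerSeries E) (PowerSeries E))) ↔ ∀ m < n, PowerSeries.coeff m x = 0 := by
  rw [smul_eq_mul, Ideal.mul_top, Ideal.span_singleton_pow, Ideal.mem_span_singleton,
    PowerSeries.X_pow_dvd_iff]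

theorem hen_complete : IsAdicComplete (Ideal.span {(PowerSeries.X : PowerSeries E)})
    (PowerSeries E) := by
  have h1 : IsHausdorff (Ideal.span {(PowerSeries.X : PowerSeries E)}) (PowerSeries E) := by
    refine ⟨fun x hx => ?_⟩
    ext n
    have := hx (n + 1)
    rw [SModEq.zero, hen_mem] at this
    rw [this n (Nat.lt_succ_self n), map_zero]
  have h2 : IsPrecomplete (Ideal.span {(PowerSeries.X : PowerSeries E)}) (PowerSeries E) := by
    refine ⟨fun f hf => ⟨PowerSeries.mk fun n => PowerSeries.coeff n (f (n + 1)), fun n => ?_⟩⟩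
    rw [SModEq.sub_mem, hen_mem]
    intro m hm
    have h3 := hf (m := m + 1) (n := n) hm
    rw [SModEq.sub_mem, hen_mem] at h3
    have h4 := h3 m (Nat.lt_succ_self m)
    rw [map_sub] at h4 ⊢
    rw [PowerSeries.coeff_mk]
    linear_combination -h4
  exact { h1, h2 with }

theorem hen_root (g : Polynomial (PowerSeries E)) (hg : g.Monic) (a : E)
    (h0 : (g.map (PowerSeries.constantCoeff (R := E))).eval a = 0)
    (h1 : (g.map (PowerSeries.constantCoeff (R := E))).derivative.eval a ≠ 0) :
    ∃ b : PowerSeries E, PowerSeries.constantCoeff b = a ∧ g.IsRoot b := by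
  have hc := hen_complete (E := E)
  have hH : HenselianRing (PowerSeries E) (Ideal.span {(PowerSeries.X : PowerSeries E)}) :=
    inferInstance
  have hev : ∀ p : Polynomial (PowerSeries E), PowerSeries.constantCoeff
      (p.eval (PowerSeries.C a)) = (p.map (PowerSeries.constantCoeff (R := E))).eval a := by
    intro p
    rw [Polynomial.eval_map, ← Polynomial.eval₂_hom, PowerSeries.constantCoeff_C]
  have hm : ∀ x : PowerSeries E, x ∈ Ideal.span {(PowerSeries.X : PowerSeries E)} ↔
      PowerSeries.constantCoeff x = 0 := by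
    intro x
    rw [Ideal.mem_span_singleton, PowerSeries.X_dvd_iff]
  obtain ⟨b, hb, hb'⟩ := hH.is_henselian g hg (PowerSeries.C a)
    ((hm _).2 (by rw [hev, h0])) (by
      apply IsUnit.map
      rw [PowerSeries.isUnit_iff_constantCoeff, hev, ← Polynomial.derivative_map]
      exact isUnit_iff_ne_zero.2 h1)
  refine ⟨b, ?_, hb⟩
  rw [hm, map_sub, PowerSeries.constantCoeff_C, sub_eq_zero] at hb'
  exact hb'

end HEN

theorem st_HEN : ST_HEN := by
  intro E _ n g a hg ha hga
  have hder : ∀ i, (∏ j, (Polynomial.X - Polynomial.C (a j))).derivative.eval (a i) ≠ 0 := by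
    intro i
    classical
    rw [← Finset.mul_prod_erase Finset.univ _ (Finset.mem_univ i), Polynomial.derivative_mul,
      Polynomial.eval_add, Polynomial.eval_mul, Polynomial.eval_mul, Polynomial.derivative_X_sub_C]
    simp only [Polynomial.eval_one, one_mul, Polynomial.eval_sub, Polynomial.eval_X,
      Polynomial.eval_C, sub_self, zero_mul, add_zero, Polynomial.eval_prod]
    refine Finset.prod_ne_zero_iff.2 fun j hj => sub_ne_zero.2 fun h => ?_
    exact (Finset.mem_erase.1 hj).1 (ha h.symm)
  have hroot : ∀ i, ∃ b : PowerSeries E, PowerSeries.constantCoeff b = a i ∧ g.IsRoot b := by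
    intro i
    refine hen_root g hg (a i) ?_ ?_
    · rw [hga, Polynomial.eval_prod]
      exact Finset.prod_eq_zero (Finset.mem_univ i) (by simp)
    · rw [hga]
      exact hder i
  choose b hb hb' using hroot
  refine ⟨b, hb, ?_⟩
  have hinj : Function.Injective b := by
    intro i j hij
    apply ha
    rw [← hb i, ← hb j, hij]
  have hdvd : ∏ i, (Polynomial.X - Polynomial.C (b i)) ∣ g := by
    have h1 : ((Finset.univ.val.map b).map fun c => Polynomial.X - Polynomial.C c).prod ∣ g := by
      rw [Multiset.prod_X_sub_C_dvd_iff_le_roots hg.ne_zero, Multiset.le_iff_subset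
        (Multiset.Nodup.map hinj Finset.univ.nodup)]
      intro c hc
      obtain ⟨i, -, rfl⟩ := Multiset.mem_map.1 hc
      exact (Polynomial.mem_roots hg.ne_zero).2 (hb' i)
    rw [Multiset.map_map] at h1
    exact h1
  refine Polynomial.eq_of_monic_of_dvd_of_natDegree_le
    (Polynomial.monic_prod_of_monic _ _ fun i _ => Polynomial.monic_X_sub_C _) hg hdvd ?_
  have h2 : (∏ i, (Polynomial.X - Polynomial.C (b i))).natDegree = n := by
    rw [Polynomial.natDegree_prod_of_monic _ _ fun i _ => Polynomial.monic_X_sub_C _]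
    simp
  have h3 : (∏ i, (Polynomial.X - Polynomial.C (a i))).natDegree = n := by
    rw [Polynomial.natDegree_prod_of_monic _ _ fun i _ => Polynomial.monic_X_sub_C _]
    simp
  rw [h2, ← h3, ← hga, hg.natDegree_map]

end Pool.Agent.Helper87.VM
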