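import Pool.Agent.Helper87.VM.Lib2

/-!
The blow-up is irreducible (module YIR).
-/

set_option autoImplicit false

namespace Pool.Agent.Helper87.VM

open MvPolynomial Pool.Agent.Helper48.VMRT

section YIR

variable {κ ν : Type}

/-- The components of the map `x ↦ seg x (F x)`. -/
noncomputable def yir_f (F : ν → MvPolynomial κ ℂ) : κ × ν → MvPolynomial κ ℂ :=
  fun p => X p.1 * F p.2

theorem yir_ev (F : ν → MvPolynomial κ ℂ) (x : κ → ℂ) : ev (yir_f F) x = seg x (ev F x) := by
  funext p
  simp [ev, yir_f, seg]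

theorem yir_prime_univ : (vanishingIdeal ℂ (Set.univ : Set (κ → ℂ))).IsPrime := by
  have h : vanishingIdeal ℂ (Set.univ : Set (κ → ℂ)) = ⊥ := by
    ext p
    rw [mem_vI, Ideal.mem_bot]
    constructor
    · intro h
      apply MvPolynomial.funext
      intro x
      rw [h x (Set.mem_univ x), map_zero]
    · rintro rfl x _
      rw [map_zero]
  rw [h]
  exact Ideal.isPrime_bot

theorem yir_prime [Fintype κ] (F : ν → MvPolynomial κ ℂ) :
    (vanishingIdeal ℂ (ev (yir_f F) '' Set.univ)).IsPrime :=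
  prime_image _ yir_prime_univ

theorem yir_cone {F : ν → MvPolynomial κ ℂ} {a : ℕ} (hF : ∀ j, HomE a (F j)) (x : κ → ℂ)
    (c : ℂ) : c • seg x (ev F x) ∈ ev (yir_f F) '' Set.univ := by
  obtain ⟨b, hb⟩ := IsAlgClosed.exists_pow_nat_eq c (n := a + 1) (Nat.succ_pos a)
  refine ⟨b • x, Set.mem_univ _, ?_⟩
  rw [yir_ev]
  have h1 : ev F (b • x) = b ^ a • ev F x := by
    funext j
    exact hF j b x
  rw [h1, seg_smul_smul, ← hb]
  congr 1
  ring

theorem yir_limit [Fintype κ] {F : ν → MvPolynomial κ ℂ} {a : ℕ} (hF : ∀ j, HomE a (F j))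
    {p : MvPolynomial (κ × ν) ℂ} (hp : p ∈ vanishingIdeal ℂ (ev (yir_f F) '' Set.univ))
    (x u : κ → ℂ) (hx : ∀ j, eval x (F j) = 0) :
    eval (seg x (fun j => dpol (F j) x u)) p = 0 := by
  let f : ν → ℂ → ℂ := fun j ε => eval (x + ε • u) (F j)
  have h0 : x + (0 : ℂ) • u = x := by simp
  have hd : ∀ j, HasDerivAt (f j) (dpol (F j) x u) 0 := by
    intro j
    have h1 := hasDerivAt_eval (F j) (γ := fun ε : ℂ => x + ε • u) (γ' := u) (τ := 0)
      (fun i => hasDerivAt_line x u 0 i)
    simp only [h0] at h1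
    exact h1
  have hf0 : ∀ j, f j 0 = 0 := by
    intro j
    simp only [f, h0, hx j]
  let Φ : ℂ → ℂ := fun ε => eval (seg (x + ε • u) (fun j => dslope (f j) 0 ε)) p
  have hc : ContinuousAt Φ 0 := by
    have h1 : ContinuousAt (fun ε : ℂ => seg (x + ε • u) (fun j => dslope (f j) 0 ε)) 0 := by
      rw [continuousAt_pi]
      rintro ⟨i, j⟩
      have h2 : ContinuousAt (fun ε : ℂ => (x + ε • u) i) 0 := by
        have : Continuous fun ε : ℂ => (x + ε • u) i := by
          simp only [Pi.add_apply, Pi.smul_apply, smul_eq_mul]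
          fun_prop
        exact this.continuousAt
      have h3 : ContinuousAt (dslope (f j) 0) 0 :=
        continuousAt_dslope_same.2 (hd j).differentiableAt
      exact h2.mul h3
    exact (MvPolynomial.continuous_eval p).continuousAt.comp h1
  have hz : ∀ ε : ℂ, ε ≠ 0 → Φ ε = 0 := by
    intro ε hε
    have h1 : (fun j => dslope (f j) 0 ε) = ε⁻¹ • ev F (x + ε • u) := by
      funext j
      rw [dslope_of_ne _ hε, slope_def_field, hf0, sub_zero, sub_zero]
      simp only [f, Pi.smul_apply, ev, smul_eq_mul]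
      rw [div_eq_inv_mul]
    show eval (seg (x + ε • u) (fun j => dslope (f j) 0 ε)) p = 0
    rw [h1, seg_smul_right]
    exact mem_vI.1 hp _ (yir_cone hF _ _)
  have h4 : Filter.Tendsto Φ (nhdsWithin 0 {0}ᶜ) (nhds (Φ 0)) := hc.continuousWithinAt
  have h5 : Filter.Tendsto Φ (nhdsWithin 0 {0}ᶜ) (nhds 0) := by
    refine (tendsto_const_nhds (x := (0 : ℂ))).congr' ?_
    filter_upwards [self_mem_nhdsWithin] with ε hε
    exact (hz ε hε).symm
  have h6 : Φ 0 = 0 := tendsto_nhds_unique h4 h5
  have h7 : (fun j => dslope (f j) 0 0) = fun j => dpol (F j) x u := by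
    funext j
    rw [dslope_same, (hd j).deriv]
  have h8 : Φ 0 = eval (seg x (fun j => dpol (F j) x u)) p := by
    show eval (seg (x + (0 : ℂ) • u) (fun j => dslope (f j) 0 0)) p = _
    rw [h7, h0]
  rw [← h8, h6]

end YIR

theorem st_YIR (hfib : ST_YFIB) : ST_YIR := by
  intro G ν _ _ w Z ρ a F ρν hFD
  have hle : vanishingIdeal ℂ (Yc F) = vanishingIdeal ℂ (ev (yir_f F) '' Set.univ) := by
    apply le_antisymm
    · apply vanishingIdeal_anti_mono
      rintro _ ⟨x, -, rfl⟩
      rw [yir_ev]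
      exact ⟨x, ev F x, rfl, syz_ev F x⟩
    · intro p hp
      rw [mem_vI]
      rintro _ ⟨x, η, rfl, hS⟩
      by_cases hx : ev F x = 0
      · have hx' : ∀ j, eval x (F j) = 0 := fun j => congrFun hx j
        obtain ⟨h1, h2⟩ := (hFD.zero x).1 hx'
        have h3 : ov 0 (fun i => x (some i)) = x := by
          rw [← h1]
          exact ov_eta x
        by_cases hz : (fun i => x (some i)) = (0 : Fin w → ℂ)
        · have h4 : x = 0 := by
            rw [← h3, hz, ov_zero_zero]
          rw [h4, seg_zero_left]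
          have h5 := mem_vI.1 hp _ (yir_cone hFD.hom x 0)
          rwa [zero_smul] at h5
        · obtain ⟨u, hu⟩ := hfib G ν w Z ρ a F ρν hFD _ h2 hz η (by rw [h3]; exact hS)
          rw [h3] at hu
          have h6 : η = fun j => dpol (F j) x u := funext hu
          rw [h6]
          exact yir_limit hFD.hom hp x u hx'
      · obtain ⟨c, rfl⟩ := hS.eq_smul hx
        rw [seg_smul_right]
        exact mem_vI.1 hp _ (yir_cone hFD.hom x c)
  rw [hle]
  exact yir_prime F

end Pool.Agent.Helper87.VM
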